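import Pool.Agent.H491R3.GB.Metric

set_option autoImplicit false

/-!
# MP_967f73_nt: the totient form of Goldbach's conjecture along almost all dilated sequences

Let `b_k` be real numbers with `b_k ≥ 1` and `k ≤ (log b_k)^D` for large `k` (for example
`b_k = 2^k`, `k!`, `exp(√k)`).  For almost every real `θ > 0` and all large `k` the system of the
problem has solutions for `n = m ⌊θ b_k⌋` for ALL positive integers `m ≤ (log b_k)^A` at the same
time, and at least `n / log² (2n)` of them.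
-/

namespace Pool.Agent.Results.MP_967f73_nt.MetricGoldbach

open Finset MeasureTheory Filter

/-- The integral solutions `x` of the system of the problem for `n`. -/
def solutions (n : ℕ) : Set ℤ := {x : ℤ |
  0 < (n : ℤ) - x ∧ 0 < (n : ℤ) + x ∧
    Nat.totient ((n : ℤ) - x).toNat + 1 = ((n : ℤ) - x).toNat ∧
    Nat.totient ((n : ℤ) + x).toNat + 1 = ((n : ℤ) + x).toNat}

theorem solutions_eq (n : ℕ) : solutions n = (H491R3.GB.sols n : Set ℤ) := by
  ext x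
  unfold solutions H491R3.GB.sols
  rw [Set.mem_ofPred_eq, mem_coe, mem_filter, Finset.mem_Ioo]
  constructor
  · rintro ⟨h1, h2, h3⟩
    exact ⟨⟨by omega, by omega⟩, h1, h2, h3⟩
  · rintro ⟨-, h⟩
    exact h

theorem result (b : ℕ → ℝ) (D A : ℕ)
    (hb : ∀ᶠ k : ℕ in atTop, 1 ≤ b k ∧ (k : ℝ) ≤ Real.log (b k) ^ D) :
    ∀ᵐ θ : ℝ, 0 < θ → ∀ᶠ k : ℕ in atTop, 2 ≤ ⌊θ * b k⌋₊ ∧
      ∀ m : ℕ, 1 ≤ m → (m : ℝ) ≤ Real.log (b k) ^ A →
        (solutions (m * ⌊θ * b k⌋₊)).Nonempty ∧ (solutions (m * ⌊θ * b k⌋₊)).Finite ∧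
        ((m * ⌊θ * b k⌋₊ : ℕ) : ℝ) / Real.log (2 * ((m * ⌊θ * b k⌋₊ : ℕ) : ℝ)) ^ 2 ≤
          (solutions (m * ⌊θ * b k⌋₊)).ncard := by
  classical
  rcases Nat.eq_zero_or_pos D with hD | hD
  · exfalso
    subst hD
    obtain ⟨N, hN⟩ := eventually_atTop.1 hb
    have h := (hN (N + 2) (by omega)).2
    rw [pow_zero] at h
    have : (N : ℝ) + 2 ≤ 1 := by exact_mod_cast h
    have h0 : (0 : ℝ) ≤ N := Nat.cast_nonneg N
    linarith
  set b' : ℕ → ℝ := fun k => if 1 ≤ b k ∧ (k : ℝ) ≤ Real.log (b k) ^ D then b k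
    else Real.exp (k + 1) with hb'
  have h1 : ∀ k, 1 ≤ b' k := by
    intro k
    rw [hb']
    beta_reduce
    split_ifs with h
    · exact h.1
    · apply Real.one_le_exp
      positivity
  have h2 : ∀ k : ℕ, (k : ℝ) ≤ Real.log (b' k) ^ D := by
    intro k
    rw [hb']
    beta_reduce
    split_ifs with h
    · exact h.2
    · rw [Real.log_exp]
      have h0 : (0 : ℝ) ≤ k := Nat.cast_nonneg k
      calc (k : ℝ) ≤ (k + 1) := by linarith
        _ = ((k : ℝ) + 1) ^ 1 := (pow_one _).symm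
        _ ≤ ((k : ℝ) + 1) ^ D := pow_le_pow_right₀ (by linarith) hD
  filter_upwards [H491R3.GB.metric b' D A h1 h2] with θ hθ h0
  filter_upwards [hθ h0, hb] with k hk hbk
  have e : b' k = b k := by
    rw [hb']
    beta_reduce
    rw [if_pos hbk]
  rw [e] at hk
  refine ⟨hk.1, fun m hm1 hm2 => ?_⟩
  have h3 := hk.2 m hm1 hm2
  rw [solutions_eq, Set.ncard_coe_finset]
  refine ⟨?_, Finset.finite_toSet _, h3⟩
  have hn : 2 ≤ m * ⌊θ * b k⌋₊ := le_trans hk.1 (Nat.le_mul_of_pos_left _ hm1)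
  have hn' : (2 : ℝ) ≤ ((m * ⌊θ * b k⌋₊ : ℕ) : ℝ) := by exact_mod_cast hn
  have hpos : 0 < ((m * ⌊θ * b k⌋₊ : ℕ) : ℝ) /
      Real.log (2 * ((m * ⌊θ * b k⌋₊ : ℕ) : ℝ)) ^ 2 := by
    have h4 : 0 < Real.log (2 * ((m * ⌊θ * b k⌋₊ : ℕ) : ℝ)) := Real.log_pos (by linarith)
    positivity
  have h5 : (0 : ℝ) < (H491R3.GB.sols (m * ⌊θ * b k⌋₊)).card := lt_of_lt_of_le hpos h3
  have h6 : 0 < (H491R3.GB.sols (m * ⌊θ * b k⌋₊)).card := by exact_mod_cast h5
  obtain ⟨x, hx⟩ := card_pos.1 h6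
  exact ⟨x, hx⟩

end Pool.Agent.Results.MP_967f73_nt.MetricGoldbach
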