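import Pool.Agent.H945R3.GAP.D

/-!
# The Goldbach problem in totient form with `x` in a residue class, for almost all members of every
family of nearly minimal additive energy

Definitions: `Pool.Agent.H945R3.GAP.Defs` (`sols q r n`: the solutions `x ≡ r` modulo `q` of the system
`φ(n - x) + 1 = n - x`, `φ(n + x) + 1 = n + x`; `adm q n`: the number of the admissible classes modulo
`q`; `bad ε q x s`: the number of the members `n` of the family for which some admissible class `r` has
no solution `x ≡ r`, or a number of solutions which differs from `HL (2 n) / adm q n` by more than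
`ε HL (2 n) / adm q n`) and `Pool.Agent.H560R3.GB.Defs` (`HL`: the prediction of Hardy and Littlewood;
`energy`: the additive energy of order `h`; `reps`: the number of representations as a sum of `h`
members).

The proof uses the exponential sums of the primes and of their sieve model, the bilinear estimate and
the main term of the files `Pool/Agent/H373R2/T7/` and `Pool/Agent/H560R3/GB/`.
-/

set_option autoImplicit false

namespace Pool.Agent.Results.MP_967f73_nt.ResidueClasses

open Finset Pool.Agent.H560R3.GB Pool.Agent.H945R3.GAP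

lemma energy_le (h x J : ℕ) (s : ℕ → ℕ) (hJ : ∀ t, reps h x s t ≤ J) : energy h x s ≤ x ^ h * J := by
  unfold energy
  rw [card_filter, sum_product]
  calc ∑ v ∈ Fintype.piFinset fun _ : Fin h => Icc 1 x, ∑ w ∈ Fintype.piFinset fun _ : Fin h => Icc 1 x,
        (if ∑ i, s (v i) = ∑ i, s (w i) then 1 else 0) ≤
      ∑ _v ∈ Fintype.piFinset fun _ : Fin h => Icc 1 x, J := by
        apply sum_le_sum
        intro v _
        rw [← card_filter]
        refine le_trans (le_of_eq ?_) (hJ (∑ i, s (v i)))
        unfold reps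
        congr 1
        apply filter_congr
        intro w _
        exact eq_comm
    _ = x ^ h * J := by
        rw [sum_const, Fintype.card_piFinset, prod_const, card_univ, Fintype.card_fin, Nat.card_Icc,
          smul_eq_mul, Nat.add_sub_cancel]

/-- Let `q` be squarefree, let `h ≥ 1`, `C`, `U` and `ε > 0` be fixed, and let `N` be large.

* Let `s 1, ..., s x` be any family of integers in `[1, N]` whose additive energy of order `h` is at
  most `log^C N` times `x ^ (2 h) / N`. Then for all but at most `x / log^U N` of the members `n` of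
  the family the system `φ(n - x) + 1 = n - x`, `φ(n + x) + 1 = n + x` has in every admissible class
  modulo `q` a solution, and the number of the solutions in the class differs from
  `HL(2 n) / adm(q, n)` by at most `ε HL(2 n) / adm(q, n)`.
* In particular this holds if no integer has more than `J` representations as a sum of `h` members
  and `x ^ h ≥ N / log^C N`. -/
theorem result (q : ℕ) (hq : Squarefree q) (h C U : ℕ) (hh : 1 ≤ h) (ε : ℝ) (hε : 0 < ε) :
    (∃ N₀ : ℕ, ∀ N : ℕ, N₀ ≤ N → ∀ (x : ℕ) (s : ℕ → ℕ),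
      (∀ m ∈ Icc 1 x, 1 ≤ s m ∧ s m ≤ N) →
      (energy h x s : ℝ) * N ≤ Real.log N ^ C * (x : ℝ) ^ (2 * h) →
      (bad ε q x s : ℝ) ≤ x / Real.log N ^ U) ∧
    (∀ J : ℕ, ∃ N₀ : ℕ, ∀ N : ℕ, N₀ ≤ N → ∀ (x : ℕ) (s : ℕ → ℕ),
      (∀ m ∈ Icc 1 x, 1 ≤ s m ∧ s m ≤ N) →
      (∀ t, reps h x s t ≤ J) → (N : ℝ) ≤ Real.log N ^ C * (x : ℝ) ^ h →
      (bad ε q x s : ℝ) ≤ x / Real.log N ^ U) := by
  refine ⟨first q hq h C U hh ε hε, fun J => ?_⟩
  obtain ⟨N₀, h0⟩ := first q hq h (C + 1) U hh ε hε
  obtain ⟨N₁, h1⟩ := Pool.Agent.H373R2.T7.ev_L' (J + 1)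
  refine ⟨N₀ + N₁ + 1, fun N hN x s hs hJ hx => ?_⟩
  apply h0 N (by omega) x s hs
  have hL := h1 N (by omega)
  have hJ0 : (0 : ℝ) ≤ J := Nat.cast_nonneg _
  have hN0 : (0 : ℝ) ≤ N := Nat.cast_nonneg _
  have hx0 : (0 : ℝ) ≤ (x : ℝ) ^ h := by positivity
  have h2 : (energy h x s : ℝ) ≤ (x : ℝ) ^ h * J := by exact_mod_cast energy_le h x J s hJ
  have hL0 : 0 ≤ Real.log N := by linarith
  calc (energy h x s : ℝ) * N ≤ ((x : ℝ) ^ h * J) * (Real.log N ^ C * (x : ℝ) ^ h) :=
        mul_le_mul h2 hx hN0 (mul_nonneg hx0 hJ0)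
    _ = J * (Real.log N ^ C * (x : ℝ) ^ (2 * h)) := by ring
    _ ≤ Real.log N * (Real.log N ^ C * (x : ℝ) ^ (2 * h)) := by
        apply mul_le_mul_of_nonneg_right (by linarith) (by positivity)
    _ = Real.log N ^ (C + 1) * (x : ℝ) ^ (2 * h) := by ring

end Pool.Agent.Results.MP_967f73_nt.ResidueClasses
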