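import Pool.Agent.H560R3.GB.Fin

/-!
# The Goldbach system after a correction from a thin set

`sols n` is the set of integral solutions `x` of the system `φ(n-x)+1 = n-x`, `φ(n+x)+1 = n+x`, and
`Good ε n` says that their number is the prediction `HL (2 n)` of Hardy and Littlewood with relative
error at most `ε`; here (`Pool.Agent.H560R3.GB.Defs`)
`HL m = 2 C₂ ∏_{p ∣ m, p > 2} (p - 1) / (p - 2) * m / log^2 m`.
`Pool.Agent.H373R2.T7.energy h x a` is the additive energy of order `h` of `a 1, ..., a x`, and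
`rep h A t` the number of representations of `t` as an ordered sum of `h` elements of the set `A`.

The proof applies `Pool.Agent.H560R3.GB.main` (the Hardy-Littlewood formula for almost all members of
every family of nearly minimal additive energy) to the affine images of a family: these have the same
energy, so the theorem says something about EVERY integer `M`, not only about almost all.
-/

set_option autoImplicit false

namespace Pool.Agent.Results.MP_967f73_nt.ThinCorrection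

open Finset Pool.Agent.H560R3.GB

/-- The integral solutions `x` of the system at `n`: the integers `x` with `n - x ≥ 1`, `n + x ≥ 1`,
`φ(n - x) + 1 = n - x` and `φ(n + x) + 1 = n + x`. -/
noncomputable def sols (n : ℕ) : Finset ℤ :=
  (Ioo (-(n : ℤ)) n).filter (fun x =>
    Nat.totient ((n : ℤ) - x).toNat + 1 = ((n : ℤ) - x).toNat ∧
      Nat.totient ((n : ℤ) + x).toNat + 1 = ((n : ℤ) + x).toNat)

/-- The number of solutions of the system at `n` is `HL (2 n)`, with relative error at most `ε`. -/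
def Good (ε : ℝ) (n : ℕ) : Prop := |((sols n).card : ℝ) - HL (2 * n)| ≤ ε * HL (2 * n)

/-- The number of representations of `t` as an ordered sum of `h` elements of `A`. -/
noncomputable def rep (h : ℕ) (A : Set ℕ) (t : ℕ) : ℕ :=
  {v : Fin h → ℕ | (∀ i, v i ∈ A) ∧ ∑ i, v i = t}.ncard

lemma tot_iff (m : ℕ) : m.totient + 1 = m ↔ m.Prime := by
  rcases Nat.eq_zero_or_pos m with h | h
  · subst h; simp [Nat.not_prime_zero]
  · rw [← Nat.totient_eq_iff_prime h]; omega

lemma card_sols (n : ℕ) : (sols n).card = g (2 * n) := by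
  unfold sols g
  apply card_bij (fun x _ => (((n : ℤ) - x).toNat, ((n : ℤ) + x).toNat))
  · intro x hx
    simp only [mem_filter, mem_Ioo, tot_iff, HasAntidiagonal.mem_antidiagonal] at hx ⊢
    exact ⟨by omega, hx.2⟩
  · intro x hx y hy hxy
    simp only [mem_filter, mem_Ioo, Prod.mk.injEq] at hx hy hxy
    omega
  · rintro ⟨p, q⟩ hpq
    simp only [mem_filter, HasAntidiagonal.mem_antidiagonal] at hpq
    obtain ⟨h1, h2, h3⟩ := hpq
    have h4 := h2.two_le
    have h5 := h3.two_le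
    refine ⟨(n : ℤ) - p, ?_, ?_⟩
    · simp only [mem_filter, mem_Ioo, tot_iff]
      have e1 : ((n : ℤ) - ((n : ℤ) - p)).toNat = p := by omega
      have e2 : ((n : ℤ) + ((n : ℤ) - p)).toNat = q := by omega
      rw [e1, e2]
      exact ⟨by omega, h2, h3⟩
    · simp only [Prod.mk.injEq]
      omega

lemma good_pos (ε : ℝ) (hε : ε < 1) (n : ℕ) (hn : 1 ≤ n) (hG : Good ε n) : (sols n).Nonempty := by
  rw [nonempty_iff_ne_empty]
  intro h0
  unfold Good at hG
  rw [h0, card_empty, Nat.cast_zero, zero_sub, abs_neg] at hG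
  have hC : 0 < C₂ := by
    have := C₂_ge 2 le_rfl
    rw [PP_two] at this
    norm_num at this
    linarith
  have hs : 0 < sing (2 * n) := by
    unfold sing
    apply mul_pos (by linarith)
    apply prod_pos
    intro p hp
    rw [mem_filter] at hp
    have : (2 : ℝ) < p := by exact_mod_cast hp.2
    exact div_pos (by linarith) (by linarith)
  have hn' : (1 : ℝ) ≤ n := by exact_mod_cast hn
  have hH : 0 < HL (2 * n) := by
    unfold HL
    apply mul_pos hs
    push_cast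
    have : 0 < Real.log (2 * (n : ℝ)) := Real.log_pos (by linarith)
    positivity
  rw [abs_of_pos hH] at hG
  nlinarith

lemma energy_affine (h x : ℕ) (a : ℕ → ℤ) (s : ℕ → ℕ) (c M : ℤ) (hc : c ≠ 0)
    (hs : ∀ m ∈ Icc 1 x, (s m : ℤ) = c * a m + M) :
    Pool.Agent.H373R2.T7.energy h x (fun m => (s m : ℤ)) = Pool.Agent.H373R2.T7.energy h x a := by
  unfold Pool.Agent.H373R2.T7.energy
  congr 1
  apply filter_congr
  intro q hq
  rw [mem_product, Fintype.mem_piFinset, Fintype.mem_piFinset] at hq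
  have e1 : ∀ v : Fin h → ℕ, (∀ i, v i ∈ Icc 1 x) → ∑ i, (s (v i) : ℤ) = c * ∑ i, a (v i) + h * M := by
    intro v hv
    rw [sum_congr rfl (fun i _ => hs (v i) (hv i)), sum_add_distrib, ← mul_sum]
    simp
  change (∑ i, ((s (q.1 i) : ℕ) : ℤ) = ∑ i, ((s (q.2 i) : ℕ) : ℤ)) ↔ _
  rw [e1 _ hq.1, e1 _ hq.2]
  constructor
  · intro h1
    exact mul_left_cancel₀ hc (by linarith)
  · intro h1
    rw [h1]

open Classical in
/-- All affine images simultaneously. -/
theorem one (h C U : ℕ) (hh : 1 ≤ h) (ε : ℝ) (hε : 0 < ε) :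
    ∃ N₀ : ℕ, ∀ N : ℕ, N₀ ≤ N → ∀ (x : ℕ) (a : ℕ → ℤ),
      (Pool.Agent.H373R2.T7.energy h x a : ℝ) * N ≤ Real.log N ^ C * (x : ℝ) ^ (2 * h) →
      ∀ T : Finset (ℤ × ℤ), (T.card : ℝ) ≤ Real.log N ^ U →
      (∀ t ∈ T, t.1 ≠ 0 ∧ ∀ m ∈ Icc 1 x, ∃ n : ℕ, 1 ≤ n ∧ 2 * n ≤ N ∧ t.1 * a m + t.2 = 2 * n) →
      (((Icc 1 x).filter (fun m => ∃ t ∈ T, ¬ Good ε ((t.1 * a m + t.2) / 2).toNat)).card : ℝ) ≤
        x / Real.log N ^ U := by
  obtain ⟨N₀, h0⟩ := main h C (U + U) hh ε hε
  refine ⟨N₀ + 3, fun N hN x a hE T hT hTa => ?_⟩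
  have hN3 : (3 : ℝ) ≤ N := by exact_mod_cast (by omega : 3 ≤ N)
  have hL : 0 < Real.log N := Real.log_pos (by linarith)
  have key : ∀ t : ℤ × ℤ, ∃ S : Finset ℕ, t ∈ T → (S.card : ℝ) ≤ x / Real.log N ^ (U + U) ∧
      ∀ m ∈ Icc 1 x, m ∉ S → Good ε ((t.1 * a m + t.2) / 2).toNat := by
    intro t
    by_cases ht : t ∈ T
    · obtain ⟨hc, hk⟩ := hTa t ht
      have hs : ∀ m ∈ Icc 1 x, (((t.1 * a m + t.2).toNat : ℕ) : ℤ) = t.1 * a m + t.2 := by
        intro m hm
        obtain ⟨n, h1, h2, h3⟩ := hk m hm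
        omega
      obtain ⟨S, hS1, hS2⟩ := h0 N (by omega) x (fun m => (t.1 * a m + t.2).toNat) (by
        intro m hm
        obtain ⟨n, h1, h2, h3⟩ := hk m hm
        have e : (t.1 * a m + t.2).toNat = 2 * n := by omega
        rw [e]
        exact ⟨even_two_mul n, by omega, h2⟩) (by
        rw [energy_affine h x a _ t.1 t.2 hc hs]; exact hE)
      refine ⟨S, fun _ => ⟨hS1, fun m hm hmS => ?_⟩⟩
      have h4 := hS2 m hm hmS
      obtain ⟨n, h1, h2, h3⟩ := hk m hm
      have e : (t.1 * a m + t.2).toNat = 2 * n := by omega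
      have e' : ((t.1 * a m + t.2) / 2).toNat = n := by omega
      rw [e] at h4
      rw [e']
      unfold Good
      rw [card_sols]
      exact h4
    · exact ⟨∅, fun h => absurd h ht⟩
  choose S hS using key
  have hsub : (Icc 1 x).filter (fun m => ∃ t ∈ T, ¬ Good ε ((t.1 * a m + t.2) / 2).toNat) ⊆ T.biUnion S := by
    intro m hm
    rw [mem_filter] at hm
    obtain ⟨hm1, t, ht, hb⟩ := hm
    rw [mem_biUnion]
    refine ⟨t, ht, ?_⟩
    by_contra hc
    exact hb ((hS t ht).2 m hm1 hc)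
  calc (((Icc 1 x).filter (fun m => ∃ t ∈ T, ¬ Good ε ((t.1 * a m + t.2) / 2).toNat)).card : ℝ)
      ≤ ((T.biUnion S).card : ℝ) := by exact_mod_cast card_le_card hsub
    _ ≤ ∑ t ∈ T, ((S t).card : ℝ) := by exact_mod_cast card_biUnion_le
    _ ≤ ∑ _t ∈ T, x / Real.log N ^ (U + U) := sum_le_sum fun t ht => (hS t ht).1
    _ = T.card * (x / Real.log N ^ (U + U)) := by rw [sum_const, nsmul_eq_mul]
    _ ≤ Real.log N ^ U * (x / Real.log N ^ (U + U)) := by
        apply mul_le_mul_of_nonneg_right hT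
        positivity
    _ = x / Real.log N ^ U := by
        rw [pow_add]
        field_simp

lemma energy_rep (h x J : ℕ) (A : Finset ℕ) (b : ℕ → ℕ) (hb : Set.BijOn b (Icc 1 x : Finset ℕ) A)
    (hJ : ∀ t, rep h A t ≤ J) :
    Pool.Agent.H373R2.T7.energy h x (fun m => (b m : ℤ)) ≤ x ^ h * J := by
  unfold Pool.Agent.H373R2.T7.energy
  rw [card_filter, sum_product]
  calc ∑ v ∈ Fintype.piFinset fun _ : Fin h => Icc 1 x, ∑ w ∈ Fintype.piFinset fun _ : Fin h => Icc 1 x,
        (if ∑ i, (b (v i) : ℤ) = ∑ i, (b (w i) : ℤ) then 1 else 0) ≤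
      ∑ _v ∈ Fintype.piFinset fun _ : Fin h => Icc 1 x, J := by
        apply sum_le_sum
        intro v _
        rw [← card_filter]
        refine le_trans ?_ (hJ (∑ i, b (v i)))
        unfold rep
        rw [← Set.ncard_coe_finset]
        have hfin : {v' : Fin h → ℕ | (∀ i, v' i ∈ (A : Set ℕ)) ∧ ∑ i, v' i = ∑ i, b (v i)}.Finite := by
          apply Set.Finite.subset (Set.Finite.pi' (fun _ : Fin h => A.finite_toSet))
          intro w hw
          exact hw.1
        apply Set.ncard_le_ncard_of_injOn (fun w i => b (w i)) _ _ hfin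
        · intro w hw
          simp only [coe_filter, Fintype.mem_piFinset, Set.mem_ofPred_eq] at hw ⊢
          refine ⟨fun i => hb.mapsTo (by exact_mod_cast hw.1 i), ?_⟩
          have := hw.2
          exact_mod_cast this.symm
        · intro w hw w' hw' hww
          simp only [coe_filter, Fintype.mem_piFinset, Set.mem_ofPred_eq] at hw hw'
          funext i
          exact hb.injOn (by exact_mod_cast hw.1 i) (by exact_mod_cast hw'.1 i) (congrFun hww i)
    _ = x ^ h * J := by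
        rw [sum_const, Fintype.card_piFinset, prod_const, card_univ, Fintype.card_fin, Nat.card_Icc,
          smul_eq_mul, Nat.add_sub_cancel]

open Classical in
/-- Every integer `M` and every finite set `A`. -/
theorem two (h C J U : ℕ) (hh : 1 ≤ h) (ε : ℝ) (hε : 0 < ε) :
    ∃ M₀ : ℕ, ∀ M : ℕ, M₀ ≤ M → ∀ A : Finset ℕ, (∀ a ∈ A, a < M ∧ Even (M + a)) →
      (∀ t, rep h A t ≤ J) → (M : ℝ) ≤ Real.log M ^ C * (A.card : ℝ) ^ h →
      ((A.filter (fun a => ¬ Good ε ((M - a) / 2))).card : ℝ) ≤ A.card / Real.log M ^ U := by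
  obtain ⟨N₀, h0⟩ := one h (C + 1) U hh ε hε
  obtain ⟨N₁, h1⟩ := Pool.Agent.H373R2.T7.ev_L' (J + 1)
  refine ⟨N₀ + N₁ + 3, fun M hM A hA hJ hcard => ?_⟩
  have hL := h1 M (by omega)
  have hJ0 : (0 : ℝ) ≤ J := Nat.cast_nonneg _
  have hM0 : (0 : ℝ) ≤ M := Nat.cast_nonneg _
  have hL1 : 1 ≤ Real.log M := by linarith
  have hL0 : 0 < Real.log M := by linarith
  set x := A.card with hx
  obtain ⟨b, hb⟩ : ∃ b : ℕ → ℕ, Set.BijOn b (Icc 1 x : Finset ℕ) A := by
    apply Set.Finite.exists_bijOn_of_encard_eq (Finset.finite_toSet _)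
    rw [Set.encard_coe_eq_coe_finsetCard, Set.encard_coe_eq_coe_finsetCard, Nat.card_Icc,
      Nat.add_sub_cancel]
  have hmem : ∀ m ∈ Icc 1 x, b m ∈ A := by
    intro m hm
    exact_mod_cast hb.mapsTo (by exact_mod_cast hm)
  have hbad := h0 M (by omega) x (fun m => (b m : ℤ)) (by
      have h2 : (Pool.Agent.H373R2.T7.energy h x (fun m => (b m : ℤ)) : ℝ) ≤ (x : ℝ) ^ h * J := by
        exact_mod_cast energy_rep h x J A b hb hJ
      have hx0 : (0 : ℝ) ≤ (x : ℝ) ^ h := by positivity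
      calc (Pool.Agent.H373R2.T7.energy h x (fun m => (b m : ℤ)) : ℝ) * M ≤
            ((x : ℝ) ^ h * J) * (Real.log M ^ C * (x : ℝ) ^ h) :=
            mul_le_mul h2 hcard hM0 (mul_nonneg hx0 hJ0)
        _ = J * (Real.log M ^ C * (x : ℝ) ^ (2 * h)) := by ring
        _ ≤ Real.log M * (Real.log M ^ C * (x : ℝ) ^ (2 * h)) := by
            apply mul_le_mul_of_nonneg_right (by linarith) (by positivity)
        _ = Real.log M ^ (C + 1) * (x : ℝ) ^ (2 * h) := by ring) {((-1 : ℤ), (M : ℤ))} (by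
      rw [card_singleton, Nat.cast_one]
      exact one_le_pow₀ hL1) (by
      intro t ht
      rw [mem_singleton] at ht
      subst ht
      refine ⟨by norm_num, fun m hm => ?_⟩
      obtain ⟨h3, k, h4⟩ := hA (b m) (hmem m hm)
      exact ⟨k - b m, by omega, by omega, by simp only; omega⟩)
  refine le_trans ?_ hbad
  have hcard2 : (A.filter (fun a => ¬ Good ε ((M - a) / 2))).card ≤
      ((Icc 1 x).filter (fun m => ∃ t ∈ ({((-1 : ℤ), (M : ℤ))} : Finset (ℤ × ℤ)),
        ¬ Good ε ((t.1 * (b m : ℤ) + t.2) / 2).toNat)).card := by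
    apply card_le_card_of_surjOn b
    intro a ha
    simp only [coe_filter, Set.mem_ofPred_eq] at ha
    obtain ⟨m, hm, hma⟩ := hb.surjOn (by exact_mod_cast ha.1 : a ∈ (A : Set ℕ))
    refine ⟨m, ?_, hma⟩
    simp only [coe_filter, Set.mem_ofPred_eq, mem_singleton, exists_eq_left]
    refine ⟨by exact_mod_cast hm, ?_⟩
    have h5 := (hA a ha.1).1
    have e : ((-1 * (b m : ℤ) + M) / 2).toNat = (M - a) / 2 := by
      rw [hma]; omega
    rw [e]
    exact ha.2
  exact_mod_cast hcard2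

/-- Infinite sets. -/
theorem three (h C J M₁ : ℕ) (hh : 1 ≤ h) :
    ∃ M₀ : ℕ, ∀ A : Set ℕ, (∀ t, rep h A t ≤ J) →
      (∀ M : ℕ, M₁ ≤ M → (M : ℝ) ≤ Real.log M ^ C * ((A ∩ Set.Iio M).ncard : ℝ) ^ h) →
      ∀ M : ℕ, M₀ ≤ M → (∀ a ∈ A, Even (M + a)) →
        ∃ a ∈ A, ∃ n : ℕ, M = 2 * n + a ∧ ∃ x : ℤ, 0 < (n : ℤ) - x ∧ 0 < (n : ℤ) + x ∧
          Nat.totient ((n : ℤ) - x).toNat + 1 = ((n : ℤ) - x).toNat ∧
          Nat.totient ((n : ℤ) + x).toNat + 1 = ((n : ℤ) + x).toNat := by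
  classical
  obtain ⟨M₀, h0⟩ := two h C J 1 hh (1 / 2) (by norm_num)
  obtain ⟨N₁, h1⟩ := Pool.Agent.H373R2.T7.ev_L' 2
  refine ⟨M₀ + M₁ + N₁ + 1, fun A hJ hcount M hM hpar => ?_⟩
  have hL := h1 M (by omega)
  set B : Finset ℕ := (range M).filter (· ∈ A) with hB
  have hBA : (B : Set ℕ) = A ∩ Set.Iio M := by
    ext a
    simp only [hB, coe_filter, mem_range, Set.mem_ofPred_eq, Set.mem_inter_iff, Set.mem_Iio]
    tauto
  have hBmem : ∀ a ∈ B, a < M ∧ a ∈ A := by
    intro a ha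
    rw [hB, mem_filter, mem_range] at ha
    exact ha
  have hcB : (M : ℝ) ≤ Real.log M ^ C * (B.card : ℝ) ^ h := by
    have := hcount M (by omega)
    rwa [← hBA, Set.ncard_coe_finset] at this
  have hrepB : ∀ t, rep h B t ≤ J := by
    intro t
    refine le_trans ?_ (hJ t)
    unfold rep
    apply Set.ncard_le_ncard
    · intro v hv
      exact ⟨fun i => (hBmem _ (by exact_mod_cast hv.1 i)).2, hv.2⟩
    · apply Set.Finite.subset (Set.Finite.pi' (fun _ : Fin h => Set.finite_Iic t))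
      intro v hv i
      rw [Set.mem_Iic, ← hv.2]
      exact single_le_sum (f := v) (fun _ _ => Nat.zero_le _) (mem_univ i)
  have hb := h0 M (by omega) B (fun a ha => ⟨(hBmem a ha).1, hpar a (hBmem a ha).2⟩) hrepB hcB
  have hBpos : 0 < B.card := by
    rcases Nat.eq_zero_or_pos B.card with hz | hz
    · exfalso
      rw [hz, Nat.cast_zero, zero_pow (by omega), mul_zero] at hcB
      have : (1 : ℝ) ≤ M := by exact_mod_cast (by omega : 1 ≤ M)
      linarith
    · exact hz
  have hBpos' : (0 : ℝ) < B.card := by exact_mod_cast hBpos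
  have hlt : ((B.filter (fun a => ¬ Good (1 / 2) ((M - a) / 2))).card : ℝ) < B.card := by
    refine lt_of_le_of_lt hb ?_
    rw [pow_one, div_lt_iff₀ (by linarith)]
    nlinarith
  have hex : ∃ a ∈ B, Good (1 / 2) ((M - a) / 2) := by
    by_contra hc
    push Not at hc
    rw [filter_true_of_mem hc] at hlt
    exact lt_irrefl _ hlt
  obtain ⟨a, ha, hG⟩ := hex
  obtain ⟨haM, haA⟩ := hBmem a ha
  obtain ⟨k, hk⟩ := hpar a haA
  obtain ⟨x, hx⟩ := good_pos (1 / 2) (by norm_num) ((M - a) / 2) (by omega) hG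
  unfold sols at hx
  rw [mem_filter, mem_Ioo] at hx
  exact ⟨a, haA, (M - a) / 2, by omega, x, by omega, by omega, hx.2.1, hx.2.2⟩

open Classical in
/-- Let `h ≥ 1`, `C`, `U` and `ε > 0` be fixed.

* Let `N` be large, `a 1, ..., a x` any family of integers whose additive energy of order `h` is at most
  `log^C N` times `x ^ (2 h) / N`, and `T` any set of at most `log^U N` affine forms `y ↦ c y + d`,
  `c ≠ 0`, all of whose values on the family are even integers in `[2, N]`. Then, for all but at most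
  `x / log^U N` of the `m ≤ x`, the number of solutions of the system at `n = (c a(m) + d) / 2` is
  `HL (2 n)` up to a relative error `ε`, for all the forms of `T` simultaneously. (Take `T = {M - y}`: this
  holds for EVERY `M ≤ N` and almost all members of the family.)
* In particular: let `A` be any set of natural numbers such that no integer has more than `J`
  representations as a sum of `h` elements of `A`, and `M ≤ |A ∩ [0, M)|^h log^C M` for all `M ≥ M₁`. Then
  for EVERY `M ≥ M₀` of the parity of the elements of `A` there is an `a ∈ A` such that `M = 2 n + a` and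
  the system has a solution at `n`; if the elements of `A` are odd primes, every odd `M ≥ M₀` is a sum of
  three primes at least one of which is in `A`. Here `M₀` depends on `h`, `C`, `J`, `M₁` only. -/
theorem result (h C U : ℕ) (hh : 1 ≤ h) (ε : ℝ) (hε : 0 < ε) :
    (∃ N₀ : ℕ, ∀ N : ℕ, N₀ ≤ N → ∀ (x : ℕ) (a : ℕ → ℤ),
      (Pool.Agent.H373R2.T7.energy h x a : ℝ) * N ≤ Real.log N ^ C * (x : ℝ) ^ (2 * h) →
      ∀ T : Finset (ℤ × ℤ), (T.card : ℝ) ≤ Real.log N ^ U →
      (∀ t ∈ T, t.1 ≠ 0 ∧ ∀ m ∈ Icc 1 x, ∃ n : ℕ, 1 ≤ n ∧ 2 * n ≤ N ∧ t.1 * a m + t.2 = 2 * n) →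
      (((Icc 1 x).filter (fun m => ∃ t ∈ T, ¬ Good ε ((t.1 * a m + t.2) / 2).toNat)).card : ℝ) ≤
        x / Real.log N ^ U) ∧
    (∀ J M₁ : ℕ, ∃ M₀ : ℕ, ∀ A : Set ℕ, (∀ t, rep h A t ≤ J) →
      (∀ M : ℕ, M₁ ≤ M → (M : ℝ) ≤ Real.log M ^ C * ((A ∩ Set.Iio M).ncard : ℝ) ^ h) →
      (∀ M : ℕ, M₀ ≤ M → (∀ a ∈ A, Even (M + a)) →
        ∃ a ∈ A, ∃ n : ℕ, M = 2 * n + a ∧ ∃ x : ℤ, 0 < (n : ℤ) - x ∧ 0 < (n : ℤ) + x ∧
          Nat.totient ((n : ℤ) - x).toNat + 1 = ((n : ℤ) - x).toNat ∧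
          Nat.totient ((n : ℤ) + x).toNat + 1 = ((n : ℤ) + x).toNat) ∧
      ((∀ a ∈ A, a.Prime ∧ Odd a) → ∀ M : ℕ, M₀ ≤ M → Odd M →
        ∃ p q r : ℕ, p.Prime ∧ q.Prime ∧ r.Prime ∧ r ∈ A ∧ p + q + r = M)) := by
  refine ⟨one h C U hh ε hε, fun J M₁ => ?_⟩
  obtain ⟨M₀, h0⟩ := three h C J M₁ hh
  refine ⟨M₀, fun A hJ hc => ⟨h0 A hJ hc, fun hA M hM hodd => ?_⟩⟩
  obtain ⟨a, ha, n, hn, x, h1, h2, h3, h4⟩ := h0 A hJ hc M hM (fun a ha => hodd.add_odd (hA a ha).2)
  rw [tot_iff] at h3 h4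
  exact ⟨_, _, a, h3, h4, (hA a ha).1, ha, by omega⟩

end Pool.Agent.Results.MP_967f73_nt.ThinCorrection
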